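import Pool.Agent.R305.DH.B

/-!
# The density hypothesis in the chain of the derivatives of `ξ`

Let `N_n(σ, T)` be the number of zeros of the `n`-th derivative of Riemann's `ξ` with real part at least
`σ` and imaginary part in `(0, T]`. Unconditionally, for all `m, n ≥ 0` and `ε > 0`,

`N_m(σ, T) ≤ C + C log² T · N_n(σ - ε, T + C log T)` for `σ ≥ 1/2 + ε`,

and the same holds for the zeros in any window of heights. Hence all derivatives of `ξ` satisfy the same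
zero-density estimates, with the same exponents: the density hypothesis for `ζ` is equivalent to
`N_n(σ, T) ≪ T^(2(1-σ)+ε)` for one, or for every, `n`.
-/

set_option autoImplicit false

namespace Pool.Agent.Results.MP_4467b5_nt.DerivativesOfXi

open Set Pool.Agent.R305.DH

/-- Riemann's function `ξ` -/
noncomputable def xi (s : ℂ) : ℂ := 1 / 2 + s * (s - 1) / 2 * completedRiemannZeta₀ s

/-- the zeros of the `n`-th derivative of `ξ` with real part at least `σ` and imaginary part in `(a, b]` -/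
def zeros (n : ℕ) (σ a b : ℝ) : Set ℂ :=
  {s : ℂ | iteratedDeriv n xi s = 0 ∧ σ ≤ s.re ∧ a < s.im ∧ s.im ≤ b}

/-- their number, with multiplicity -/
noncomputable def num (n : ℕ) (σ a b : ℝ) : ℕ :=
  ∑ᶠ s ∈ zeros n σ a b, analyticOrderNatAt (iteratedDeriv n xi) s

/-- the number of zeros of zeta with real part at least `σ` and imaginary part in `(0, T]`, with
multiplicity -/
noncomputable def zetaNum (σ T : ℝ) : ℕ :=
  ∑ᶠ s ∈ {s : ℂ | riemannZeta s = 0 ∧ σ ≤ s.re ∧ 0 < s.im ∧ s.im ≤ T}, analyticOrderNatAt riemannZeta s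

/-- the zero-density estimate with exponent `a` for the `n`-th derivative of `ξ` -/
def Density (n : ℕ) (a : ℝ → ℝ) : Prop := ∀ ε : ℝ, 0 < ε → ∃ C T₀ : ℝ, ∀ T : ℝ, T₀ ≤ T → ∀ σ : ℝ,
  1 / 2 ≤ σ → σ ≤ 1 → (num n σ 0 T : ℝ) ≤ C * T ^ (a σ + ε)

/-- the density hypothesis -/
def DensityHypothesis : Prop := ∀ ε : ℝ, 0 < ε → ∃ C T₀ : ℝ, 0 < C ∧ ∀ T : ℝ, T₀ ≤ T → ∀ σ : ℝ,
  1 / 2 ≤ σ → σ ≤ 1 → (zetaNum σ T : ℝ) ≤ C * T ^ (2 * (1 - σ) + ε)

theorem result :
    -- the sets are finite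
    (∀ (n : ℕ) (σ a b : ℝ), (zeros n σ a b).Finite) ∧
    -- the comparison in windows
    (∀ (m n : ℕ) (ε : ℝ), 0 < ε → ∃ C T₀ : ℝ, 0 < C ∧ ∀ σ a b : ℝ, 1 / 2 + ε ≤ σ → T₀ ≤ a →
      (num m σ a b : ℝ) ≤ C * Real.log b ^ 2 *
        num n (σ - ε) (max 0 (a - C * Real.log b)) (b + C * Real.log b)) ∧
    -- the comparison up to the height `T`
    (∀ (m n : ℕ) (ε : ℝ), 0 < ε → ∃ C T₀ : ℝ, 0 < C ∧ ∀ T σ : ℝ, T₀ ≤ T → 1 / 2 + ε ≤ σ →
      (num m σ 0 T : ℝ) ≤ C + C * Real.log T ^ 2 * num n (σ - ε) 0 (T + C * Real.log T)) ∧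
    -- all derivatives have the same density exponents
    (∀ (m n : ℕ) (a : ℝ → ℝ), ContinuousOn a (Icc (1 / 2) 1) → 1 ≤ a (1 / 2) →
      (∀ σ ∈ Icc (1 / 2 : ℝ) 1, 0 ≤ a σ) → (Density m a ↔ Density n a)) ∧
    -- the density hypothesis
    (∀ n : ℕ, DensityHypothesis ↔ Density n (fun σ => 2 * (1 - σ))) := by
  have hxi : xi = Pool.Agent.H986R2.K4.xi := by
    funext s
    unfold xi Pool.Agent.H986R2.K4.xi
    ring
  have hz : ∀ (n : ℕ) (σ a b : ℝ), zeros n σ a b = Zr n σ a b := by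
    intro n σ a b
    unfold zeros Zr
    rw [hxi]
  have hnum : ∀ (n : ℕ) (σ a b : ℝ), num n σ a b = Pool.Agent.W186.SD.Cnt.num n (Zr n σ a b) := by
    intro n σ a b
    unfold num Pool.Agent.W186.SD.Cnt.num
    rw [hz, hxi]
  have hD : ∀ (n : ℕ) (a : ℝ → ℝ), Density n a ↔ Dens n a := by
    intro n a
    unfold Density Dens N
    simp only [hnum]
  have hDD : ∀ (m n : ℕ) (a : ℝ → ℝ), ContinuousOn a (Icc (1 / 2) 1) → 1 ≤ a (1 / 2) →
      (∀ σ ∈ Icc (1 / 2 : ℝ) 1, 0 ≤ a σ) → (Density m a ↔ Density n a) := by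
    intro m n a h1 h2 h3
    rw [hD, hD]
    exact ⟨transfer n m a h1 h2 h3, transfer m n a h1 h2 h3⟩
  refine ⟨fun n σ a b => by rw [hz]; exact Zr_fin n σ a b, ?_, ?_, hDD, ?_⟩
  · intro m n ε hε
    obtain ⟨C, T0, hC, -, h⟩ := compare m n ε hε
    refine ⟨C, T0, hC, fun σ a b h1 h2 => ?_⟩
    rw [hnum, hnum]
    exact h σ a b h1 h2
  · intro m n ε hε
    obtain ⟨C, T0, hC, -, h⟩ := compareN m n ε hε
    refine ⟨C, T0, hC, fun T σ h1 h2 => ?_⟩
    rw [hnum, hnum]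
    exact h T σ h1 h2
  · intro n
    rw [hDD n 0 (fun σ => 2 * (1 - σ)) (by fun_prop) (by norm_num) (by
      intro σ hσ
      have := hσ.2
      show 0 ≤ 2 * (1 - σ)
      linarith)]
    have hzn : ∀ σ T : ℝ, 0 < σ → zetaNum σ T = num 0 σ 0 T := by
      intro σ T hσ
      rw [hnum]
      exact Nz_eq σ T hσ
    constructor
    · intro h ε hε
      obtain ⟨C, T0, -, h1⟩ := h ε hε
      refine ⟨C, T0, fun T hT σ h2 h3 => ?_⟩
      rw [← hzn σ T (by linarith)]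
      exact h1 T hT σ h2 h3
    · intro h ε hε
      obtain ⟨C, T0, h1⟩ := h ε hε
      refine ⟨|C| + 1, max T0 0, by positivity, fun T hT σ h2 h3 => ?_⟩
      rw [hzn σ T (by linarith)]
      have hT1 : T0 ≤ T := (le_max_left _ _).trans hT
      have hT2 : 0 ≤ T := (le_max_right _ _).trans hT
      refine (h1 T hT1 σ h2 h3).trans ?_
      have : 0 ≤ T ^ (2 * (1 - σ) + ε) := by positivity
      have h4 := le_abs_self C
      nlinarith

end Pool.Agent.Results.MP_4467b5_nt.DerivativesOfXi
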