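import Pool.Agent.R305.LD.D
/-!
# Zero-density estimates and large deviations of `log |ζ(s)|`
For `ε > 0` call `s = σ + i t` with `0 ≤ t ≤ T` a point of large deviation if `|log |ζ(s)|| > ε log T`
(the zeros of `ζ` are such points). We prove unconditionally that the number `N(σ, T)` of zeros and the
measure of the set of points of large deviation determine each other: up to an arbitrarily small shift of
`σ` and an arbitrarily small power of `T`, the number of zeros is bounded by the area of the set of points of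
large deviation to the right of `σ`, and the measure of the set of points of large deviation on the line
`Re s = σ` is bounded by the number of zeros. In particular the density hypothesis (or any other
zero-density estimate) holds if and only if `T ^ (-ε) ≤ |ζ(σ + it)| ≤ T ^ ε` for all `t ∈ [0, T]` outside a
set of measure `≪ T ^ (2 (1 - σ) + ε)`, uniformly in `1/2 ≤ σ ≤ 1`.
-/
set_option autoImplicit false
namespace Pool.Agent.Results.MP_4467b5_nt.LargeDeviations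
open Set MeasureTheory Complex Pool.Agent.R305

/-- the zeros of zeta with real part at least `σ` and imaginary part in `(0, T]` -/
def zeros (σ T : ℝ) : Set ℂ := {s : ℂ | riemannZeta s = 0 ∧ σ ≤ s.re ∧ 0 < s.im ∧ s.im ≤ T}

/-- their number, with multiplicity -/
noncomputable def N (σ T : ℝ) : ℕ := ∑ᶠ s ∈ zeros σ T, analyticOrderNatAt riemannZeta s

/-- the zero-density estimate with exponent `a` -/
def Density (a : ℝ → ℝ) : Prop := ∀ ε : ℝ, 0 < ε → ∃ C T₀ : ℝ, ∀ T : ℝ, T₀ ≤ T → ∀ σ : ℝ,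
  1 / 2 ≤ σ → σ ≤ 1 → (N σ T : ℝ) ≤ C * T ^ (a σ + ε)

/-- the density hypothesis -/
def DensityHypothesis : Prop := ∀ ε : ℝ, 0 < ε → ∃ C T₀ : ℝ, 0 < C ∧ ∀ T : ℝ, T₀ ≤ T → ∀ σ : ℝ,
  1 / 2 ≤ σ → σ ≤ 1 → (N σ T : ℝ) ≤ C * T ^ (2 * (1 - σ) + ε)

/-- `|log |ζ(s)|| > ε log T` -/
def Deviates (ε T : ℝ) (s : ℂ) : Prop := ¬ (T ^ (-ε) ≤ ‖riemannZeta s‖ ∧ ‖riemannZeta s‖ ≤ T ^ ε)

/-- the heights of large deviation on the line with real part `σ` -/
def heights (ε σ T : ℝ) : Set ℝ := {t : ℝ | 0 ≤ t ∧ t ≤ T ∧ Deviates ε T (σ + t * I)}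

/-- the points of large deviation with real part in `[σ, 1]` -/
def region (ε σ T : ℝ) : Set ℂ := {s : ℂ | σ ≤ s.re ∧ s.re ≤ 1 ∧ 0 ≤ s.im ∧ s.im ≤ T ∧ Deviates ε T s}

/-- the large deviation estimate on lines with exponent `a` -/
def LineDeviations (a : ℝ → ℝ) : Prop := ∀ ε : ℝ, 0 < ε → ∃ C T₀ : ℝ, ∀ T : ℝ, T₀ ≤ T → ∀ σ : ℝ,
  1 / 2 ≤ σ → σ ≤ 1 → (volume (heights ε σ T)).toReal ≤ C * T ^ (a σ + ε)

/-- the large deviation estimate in strips with exponent `a` -/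
def StripDeviations (a : ℝ → ℝ) : Prop := ∀ ε : ℝ, 0 < ε → ∃ C T₀ : ℝ, ∀ T : ℝ, T₀ ≤ T → ∀ σ : ℝ,
  1 / 2 ≤ σ → σ ≤ 1 → (volume (region ε σ T)).toReal ≤ C * T ^ (a σ + ε)

lemma heights_eq (ε σ T : ℝ) : heights ε σ T = LD.dev ε σ T := by
  ext t
  have h : ((σ : ℂ) + t * I) = (⟨σ, t⟩ : ℂ) := (Complex.mk_eq_add_mul_I σ t).symm
  constructor
  · rintro ⟨h1, h2, h3⟩
    rw [h] at h3
    exact ⟨⟨h1, h2⟩, h3⟩
  · rintro ⟨⟨h1, h2⟩, h3⟩
    refine ⟨h1, h2, ?_⟩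
    rw [h]
    exact h3

lemma region_eq (ε σ T : ℝ) : region ε σ T = LD.area ε σ T := by
  ext s
  constructor
  · rintro ⟨h1, h2, h3, h4, h5⟩
    exact ⟨⟨h1, h2⟩, ⟨h3, h4⟩, h5⟩
  · rintro ⟨⟨h1, h2⟩, ⟨h3, h4⟩, h5⟩
    exact ⟨h1, h2, h3, h4, h5⟩

lemma line_iff (a : ℝ → ℝ) : LineDeviations a ↔ LD.LDev a := by
  unfold LineDeviations LD.LDev
  simp only [heights_eq]

lemma strip_iff (a : ℝ → ℝ) : StripDeviations a ↔ LD.LArea a := by
  unfold StripDeviations LD.LArea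
  simp only [region_eq]

lemma density_iff (a : ℝ → ℝ) : Density a ↔ MV.Dens a := Iff.rfl

/-- Zero-density estimates and large deviations of `log |ζ|`. -/
theorem result :
    -- the sets of zeros that are counted are finite
    (∀ σ T : ℝ, (zeros σ T).Finite) ∧
    -- every point of large deviation is close to a zero
    (∀ δ ε : ℝ, 0 < δ → 0 < ε → ∃ T₀ : ℝ, ∀ T : ℝ, T₀ ≤ T → ∀ s : ℂ, 1 / 2 + δ ≤ s.re → s.re ≤ 1 →
      3 ≤ s.im → s.im ≤ T → Deviates ε T s →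
      ∃ ρ : ℂ, riemannZeta ρ = 0 ∧ s.re - δ < ρ.re ∧ |ρ.im - s.im| < 2) ∧
    -- near every zero the points of large deviation have an area that is not small
    (∀ ε r : ℝ, 0 < ε → ε ≤ 1 → 0 < r → r ≤ 1 / 16 → ∃ T₀ : ℝ, ∀ T : ℝ, T₀ ≤ T → ∀ ρ : ℂ,
      riemannZeta ρ = 0 → 1 / 2 ≤ ρ.re → 4 ≤ ρ.im → ρ.im ≤ T - 1 →
      r ^ 2 / 8 * T ^ (-(6 * ε)) ≤
        (volume {s : ℂ | ‖s - ρ‖ < 2 * r ∧ s.re ≤ 1 ∧ Deviates ε T s}).toReal) ∧
    -- the measure on a line is bounded by the number of zeros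
    (∀ δ ε : ℝ, 0 < δ → 0 < ε → ∃ T₀ : ℝ, ∀ T : ℝ, T₀ ≤ T → ∀ σ : ℝ, 1 / 2 + δ ≤ σ → σ ≤ 1 →
      (volume (heights ε σ T)).toReal ≤ 4 + 4 * N (σ - δ) (T + 2)) ∧
    -- the number of zeros is bounded by the area
    (∀ δ ε : ℝ, 0 < δ → 0 < ε → ε ≤ 1 → ∃ C T₀ : ℝ, 0 < C ∧ ∀ T : ℝ, T₀ ≤ T → ∀ σ : ℝ,
      1 / 2 + δ ≤ σ → σ ≤ 1 →
      (N σ T : ℝ) ≤ C * T ^ (7 * ε) * (1 + (volume (region ε (σ - δ) (T + 2))).toReal)) ∧
    -- zero-density estimates are equivalent to large deviation estimates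
    (∀ a : ℝ → ℝ, ContinuousOn a (Icc (1 / 2) 1) → AntitoneOn a (Icc (1 / 2) 1) → 1 ≤ a (1 / 2) →
      0 ≤ a 1 → (Density a ↔ LineDeviations a) ∧ (Density a ↔ StripDeviations a)) ∧
    -- the density hypothesis
    (DensityHypothesis ↔ LineDeviations (fun σ => 2 * (1 - σ))) ∧
    (DensityHypothesis ↔ StripDeviations (fun σ => 2 * (1 - σ))) := by
  have hmain : ∀ a : ℝ → ℝ, ContinuousOn a (Icc (1 / 2) 1) → AntitoneOn a (Icc (1 / 2) 1) →
      1 ≤ a (1 / 2) → 0 ≤ a 1 → (Density a ↔ LineDeviations a) ∧ (Density a ↔ StripDeviations a) := by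
    intro a h1 h2 h3 h4
    have h0 : ∀ σ ∈ Icc (1 / 2 : ℝ) 1, 0 ≤ a σ := fun σ hσ =>
      h4.trans (h2 hσ ⟨by norm_num, le_rfl⟩ hσ.2)
    rw [line_iff, strip_iff, density_iff]
    have k1 := LD.dens_to_dev a h1 h3 h0
    have k2 := LD.dev_to_area a h2
    have k3 := LD.area_to_dens a h1 h3 h0
    exact ⟨⟨k1, fun h => k3 (k2 h)⟩, ⟨fun h => k2 (k1 h), k3⟩⟩
  have hDH : DensityHypothesis ↔ Density (fun σ => 2 * (1 - σ)) := by
    constructor
    · intro h ε hε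
      obtain ⟨C, T0, -, hC⟩ := h ε hε
      exact ⟨C, T0, hC⟩
    · intro h ε hε
      obtain ⟨C, T0, hC⟩ := h ε hε
      refine ⟨|C| + 1, max T0 1, by positivity, fun T hT σ hσ hσ1 => ?_⟩
      have h1 : T0 ≤ T := (le_max_left _ _).trans hT
      have h2 : 1 ≤ T := (le_max_right _ _).trans hT
      refine (hC T h1 σ hσ hσ1).trans ?_
      apply mul_le_mul_of_nonneg_right _ (by positivity)
      linarith [le_abs_self C]
  have h2s := hmain (fun σ => 2 * (1 - σ)) (by fun_prop) (by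
    intro x _ y _ hxy
    simp only
    linarith) (by norm_num) (by norm_num)
  refine ⟨DH31.zeros_finite, ?_, ?_, ?_, ?_, hmain, ?_, ?_⟩
  · intro δ ε hδ hε
    obtain ⟨T0, h⟩ := LD.dict_point (δ := min δ (1 / 4)) (lt_min hδ (by norm_num))
      (min_le_right _ _) hε
    have h3 := min_le_left δ (1 / 4)
    refine ⟨T0, fun T hT s hs hs1 hs3 hsT hD => ?_⟩
    obtain ⟨ρ, k1, k2, k3⟩ := h T hT s (by linarith) hs1 hs3 hsT hD
    exact ⟨ρ, k1, by linarith, k3⟩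
  · intro ε r hε hε1 hr hr1
    obtain ⟨T0, hT03, h⟩ := LD.near_zero hε hε1 hr hr1
    refine ⟨T0, fun T hT ρ hρ hρ1 h4 hT1 => ?_⟩
    have k := h T hT ρ hρ hρ1 h4 hT1
    have hset : Metric.ball ρ (2 * r) ∩ LD.E ε T ∩ {s : ℂ | s.re ≤ 1} =
        {s : ℂ | ‖s - ρ‖ < 2 * r ∧ s.re ≤ 1 ∧ Deviates ε T s} := by
      ext s
      constructor
      · rintro ⟨⟨k1, k2⟩, k3⟩
        rw [Metric.mem_ball, dist_eq_norm] at k1
        exact ⟨k1, k3, k2⟩
      · rintro ⟨k1, k2, k3⟩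
        refine ⟨⟨?_, k3⟩, k2⟩
        rw [Metric.mem_ball, dist_eq_norm]
        exact k1
    rw [hset] at k
    have hfin : volume {s : ℂ | ‖s - ρ‖ < 2 * r ∧ s.re ≤ 1 ∧ Deviates ε T s} ≠ ⊤ := by
      refine ne_top_of_le_ne_top ?_ (measure_mono (show _ ⊆ Metric.ball ρ (2 * r) from ?_))
      · rw [LD.vol_ball _ (by linarith)]
        exact ENNReal.ofReal_ne_top
      · rintro s ⟨k1, -⟩
        rw [Metric.mem_ball, dist_eq_norm]
        exact k1
    exact (ENNReal.ofReal_le_iff_le_toReal hfin).1 k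
  · intro δ ε hδ hε
    obtain ⟨T0, h⟩ := LD.dict_dev (δ := min δ (1 / 4)) (lt_min hδ (by norm_num))
      (min_le_right _ _) hε
    have h3 := min_le_left δ (1 / 4)
    refine ⟨T0, fun T hT σ hσ hσ1 => ?_⟩
    have k := h T hT σ (by linarith) hσ1
    rw [heights_eq]
    refine k.trans ?_
    have hsub : DH31.zeros (σ - min δ (1 / 4)) (T + 2) ⊆ DH31.zeros (σ - δ) (T + 2) :=
      fun s hs => ⟨hs.1, by linarith [hs.2.1], hs.2.2⟩
    have hle : (MV.N (σ - min δ (1 / 4)) (T + 2) : ℝ) ≤ N (σ - δ) (T + 2) := by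
      have : DH31.cnt (DH31.zeros (σ - min δ (1 / 4)) (T + 2)) ≤ DH31.cnt (DH31.zeros (σ - δ) (T + 2)) := by
        rw [DH31.cnt_eq (DH31.zeros_finite _ _), DH31.cnt_eq (DH31.zeros_finite _ _)]
        exact Finset.sum_le_sum_of_subset (by
          intro s hs
          rw [Set.Finite.mem_toFinset] at hs ⊢
          exact hsub hs)
      exact_mod_cast this
    linarith
  · intro δ ε hδ hε hε1
    obtain ⟨C, T0, hC, h⟩ := LD.dict_area (δ := min δ (1 / 2)) (lt_min hδ (by norm_num))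
      (min_le_right _ _) hε hε1
    have h3 := min_le_left δ (1 / 2)
    refine ⟨C, max T0 1, hC, fun T hT σ hσ hσ1 => ?_⟩
    have h1 : T0 ≤ T := (le_max_left _ _).trans hT
    have h2 : 1 ≤ T := (le_max_right _ _).trans hT
    have k := h T h1 σ (by linarith) hσ1
    rw [region_eq]
    refine k.trans ?_
    apply mul_le_mul_of_nonneg_left _ (by positivity)
    have hle := ENNReal.toReal_mono (LD.area_lt_top ε (σ - δ) (T + 2)).ne
      (measure_mono (show LD.area ε (σ - min δ (1 / 2)) (T + 2) ⊆ LD.area ε (σ - δ) (T + 2) from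
        fun s hs => ⟨⟨by linarith [hs.1.1], hs.1.2⟩, hs.2⟩))
    linarith
  · rw [hDH]
    exact h2s.1
  · rw [hDH]
    exact h2s.2

end Pool.Agent.Results.MP_4467b5_nt.LargeDeviations
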