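import Pool.Agent.R305.LD.H
/-!
# The density hypothesis is equivalent to the Lindelöf hypothesis on average
The Lindelöf hypothesis `|ζ(σ + it)| ≤ T ^ ε` for `σ ≥ 1/2`, `t ≤ T` implies the density hypothesis. We prove
unconditionally that the density hypothesis is EQUIVALENT to a one-sided average version of the Lindelöf
hypothesis: for every `ε > 0`, uniformly in `1/2 ≤ σ ≤ 1`, the set of `t ∈ [0, T]` with `|ζ(σ + it)| > T ^ ε`
has measure `≪ T ^ (2 (1 - σ) + ε)`. In fact, for `σ > 1/2` all zeros with real part at least `σ` and height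
at most `T`, with the exception of `≪ T ^ (2 (1 - σ) + ε)` of them, are close to large values of zeta, and
their number is bounded by `T ^ ε` times the area of the set of large values to the right of `σ - δ`;
conversely the set of large values is covered by neighbourhoods of the zeros.
The zeros without large values nearby are counted by `DH31.count_a` (a result of the starting library).
-/
set_option autoImplicit false
namespace Pool.Agent.Results.MP_4467b5_nt.LindelofOnAverage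
open Set MeasureTheory Complex Pool.Agent.R305

/-- the zeros of zeta with real part at least `σ` and imaginary part in `(0, T]` -/
def zeros (σ T : ℝ) : Set ℂ := {s : ℂ | riemannZeta s = 0 ∧ σ ≤ s.re ∧ 0 < s.im ∧ s.im ≤ T}

/-- their number, with multiplicity -/
noncomputable def N (σ T : ℝ) : ℕ := ∑ᶠ s ∈ zeros σ T, analyticOrderNatAt riemannZeta s

/-- the zero-density estimate with exponent `a` -/
def Density (a : ℝ → ℝ) : Prop := ∀ ε : ℝ, 0 < ε → ∃ C T₀ : ℝ, ∀ T : ℝ, T₀ ≤ T → ∀ σ : ℝ,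
  1 / 2 ≤ σ → σ ≤ 1 → (N σ T : ℝ) ≤ C * T ^ (a σ + ε)

/-- the density hypothesis -/
def DensityHypothesis : Prop := ∀ ε : ℝ, 0 < ε → ∃ C T₀ : ℝ, 0 < C ∧ ∀ T : ℝ, T₀ ≤ T → ∀ σ : ℝ,
  1 / 2 ≤ σ → σ ≤ 1 → (N σ T : ℝ) ≤ C * T ^ (2 * (1 - σ) + ε)

/-- the heights `t ∈ [0, T]` of the large values on the line with real part `σ` -/
def onLine (ε σ T : ℝ) : Set ℝ := {t : ℝ | 0 ≤ t ∧ t ≤ T ∧ T ^ ε < ‖riemannZeta (σ + t * I)‖}

/-- the heights `t ∈ [0, T]` at which there is a large value to the right of `σ` -/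
def onHalfLine (ε σ T : ℝ) : Set ℝ :=
  {t : ℝ | 0 ≤ t ∧ t ≤ T ∧ ∃ x : ℝ, σ ≤ x ∧ T ^ ε < ‖riemannZeta (x + t * I)‖}

/-- the points of the rectangle `[σ, 1] × [0, T]` where zeta is larger than `V` -/
def region (V σ T : ℝ) : Set ℂ := {s : ℂ | σ ≤ s.re ∧ s.re ≤ 1 ∧ 0 ≤ s.im ∧ s.im ≤ T ∧ V < ‖riemannZeta s‖}

/-- for every `ε > 0` the set `L ε σ T` has measure `≪ T ^ (a σ + ε)`, uniformly in `1/2 ≤ σ ≤ 1` -/
def Rare (L : ℝ → ℝ → ℝ → Set ℝ) (a : ℝ → ℝ) : Prop := ∀ ε : ℝ, 0 < ε → ∃ C T₀ : ℝ, ∀ T : ℝ, T₀ ≤ T →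
  ∀ σ : ℝ, 1 / 2 ≤ σ → σ ≤ 1 → (volume (L ε σ T)).toReal ≤ C * T ^ (a σ + ε)

/-- the same for the area of the large values -/
def RareArea (a : ℝ → ℝ) : Prop := ∀ ε : ℝ, 0 < ε → ∃ C T₀ : ℝ, ∀ T : ℝ, T₀ ≤ T →
  ∀ σ : ℝ, 1 / 2 ≤ σ → σ ≤ 1 → (volume (region (T ^ ε) σ T)).toReal ≤ C * T ^ (a σ + ε)

lemma mk_eq (x t : ℝ) : ((x : ℂ) + t * I) = (⟨x, t⟩ : ℂ) := (Complex.mk_eq_add_mul_I x t).symm

lemma onLine_eq (ε σ T : ℝ) : onLine ε σ T = LD.hv ε σ T := by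
  ext t
  constructor
  · rintro ⟨h1, h2, h3⟩
    rw [mk_eq] at h3
    exact ⟨⟨h1, h2⟩, h3⟩
  · rintro ⟨⟨h1, h2⟩, h3⟩
    refine ⟨h1, h2, ?_⟩
    rw [mk_eq]
    exact h3

lemma onHalfLine_eq (ε σ T : ℝ) : onHalfLine ε σ T = LD.hs ε σ T := by
  ext t
  constructor
  · rintro ⟨h1, h2, x, hx, h3⟩
    rw [mk_eq] at h3
    exact ⟨⟨h1, h2⟩, x, hx, h3⟩
  · rintro ⟨⟨h1, h2⟩, x, hx, h3⟩
    refine ⟨h1, h2, x, hx, ?_⟩
    rw [mk_eq]
    exact h3

lemma region_eq (ε T σ S : ℝ) : region (T ^ ε) σ S =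
    {s : ℂ | (σ ≤ s.re ∧ s.re ≤ 1) ∧ (0 ≤ s.im ∧ s.im ≤ S) ∧ s ∈ LD.U ε T} := by
  ext s
  constructor
  · rintro ⟨h1, h2, h3, h4, h5⟩
    exact ⟨⟨h1, h2⟩, ⟨h3, h4⟩, h5⟩
  · rintro ⟨⟨h1, h2⟩, ⟨h3, h4⟩, h5⟩
    exact ⟨h1, h2, h3, h4, h5⟩

lemma line_iff (a : ℝ → ℝ) : Rare onLine a ↔ LD.LVal a := by
  unfold Rare LD.LVal
  simp only [onLine_eq]

lemma half_iff (a : ℝ → ℝ) : Rare onHalfLine a ↔ LD.SVal a := by
  unfold Rare LD.SVal
  simp only [onHalfLine_eq]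

lemma area_iff (a : ℝ → ℝ) : RareArea a ↔ LD.AVal a := by
  unfold RareArea LD.AVal LD.av
  simp only [region_eq]

lemma density_iff (a : ℝ → ℝ) : Density a ↔ MV.Dens a := Iff.rfl

/-- The density hypothesis and large values of zeta. -/
theorem result :
    -- the sets of zeros that are counted are finite
    (∀ σ T : ℝ, (zeros σ T).Finite) ∧
    -- all but few zeros are close to large values
    (∀ δ ε : ℝ, 0 < δ → 0 < ε → ∃ η C T₀ : ℝ, 0 < η ∧ 0 < C ∧ ∀ T : ℝ, T₀ ≤ T → ∀ σ : ℝ,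
      1 / 2 + δ ≤ σ → σ ≤ 1 → (N σ T : ℝ) ≤ C * (T ^ (2 * (1 - σ) + ε) +
        T ^ ε * (volume (region (T ^ η) (σ - δ) (T + 2))).toReal)) ∧
    -- the large values are close to zeros
    (∀ δ ε : ℝ, 0 < δ → 0 < ε → ∃ T₀ : ℝ, ∀ T : ℝ, T₀ ≤ T → ∀ σ : ℝ, 1 / 2 + δ ≤ σ → σ ≤ 1 →
      (volume (onHalfLine ε σ T)).toReal ≤ 4 + 4 * N (σ - δ) (T + 2)) ∧
    -- zero-density estimates with exponents at least `2 (1 - σ)`
    (∀ a : ℝ → ℝ, ContinuousOn a (Icc (1 / 2) 1) → AntitoneOn a (Icc (1 / 2) 1) →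
      (∀ σ ∈ Icc (1 / 2 : ℝ) 1, 2 * (1 - σ) ≤ a σ) →
      (Density a ↔ Rare onLine a) ∧ (Density a ↔ Rare onHalfLine a) ∧ (Density a ↔ RareArea a)) ∧
    -- the density hypothesis
    (DensityHypothesis ↔ Rare onLine (fun σ => 2 * (1 - σ))) ∧
    (DensityHypothesis ↔ Rare onHalfLine (fun σ => 2 * (1 - σ))) ∧
    (DensityHypothesis ↔ RareArea (fun σ => 2 * (1 - σ))) := by
  have hmain : ∀ a : ℝ → ℝ, ContinuousOn a (Icc (1 / 2) 1) → AntitoneOn a (Icc (1 / 2) 1) →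
      (∀ σ ∈ Icc (1 / 2 : ℝ) 1, 2 * (1 - σ) ≤ a σ) →
      (Density a ↔ Rare onLine a) ∧ (Density a ↔ Rare onHalfLine a) ∧ (Density a ↔ RareArea a) := by
    intro a h1 h2 h3
    have h0 : ∀ σ ∈ Icc (1 / 2 : ℝ) 1, 0 ≤ a σ := fun σ hσ => by
      have := h3 σ hσ
      linarith [hσ.2]
    have h12 : 1 ≤ a (1 / 2) := by
      have := h3 (1 / 2) ⟨le_rfl, by norm_num⟩
      linarith
    rw [line_iff, half_iff, area_iff, density_iff]
    have k1 := LD.dens_to_hs a h1 h12 h0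
    have k2 := LD.hs_to_val (a := a)
    have k3 := LD.val_to_area a h2
    have k4 := LD.area_to_dens' a h1 h3
    exact ⟨⟨fun h => k2 (k1 h), fun h => k4 (k3 h)⟩, ⟨k1, fun h => k4 (k3 (k2 h))⟩,
      ⟨fun h => k3 (k2 (k1 h)), k4⟩⟩
  have hDH : DensityHypothesis ↔ Density (fun σ => 2 * (1 - σ)) := by
    constructor
    · intro h ε hε
      obtain ⟨C, T0, -, hC⟩ := h ε hε
      exact ⟨C, T0, hC⟩
    · intro h ε hε
      obtain ⟨C, T0, hC⟩ := h ε hε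
      refine ⟨|C| + 1, max T0 1, by positivity, fun T hT σ hσ hσ1 => ?_⟩
      have h1 : T0 ≤ T := (le_max_left _ _).trans hT
      have h2 : 1 ≤ T := (le_max_right _ _).trans hT
      refine (hC T h1 σ hσ hσ1).trans ?_
      apply mul_le_mul_of_nonneg_right _ (by positivity)
      linarith [le_abs_self C]
  have h2s := hmain (fun σ => 2 * (1 - σ)) (by fun_prop) (by
    intro x _ y _ hxy
    simp only
    linarith) (fun σ _ => le_rfl)
  refine ⟨DH31.zeros_finite, ?_, ?_, hmain, ?_, ?_, ?_⟩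
  · intro δ ε hδ hε
    obtain ⟨e, C, T0, he, -, hC, h⟩ := LD.dict_val (δ := min δ (1 / 2)) (lt_min hδ (by norm_num))
      (min_le_right _ _) hε
    have h3 := min_le_left δ (1 / 2)
    refine ⟨e, C, max T0 1, he, hC, fun T hT σ hσ hσ1 => ?_⟩
    have h1 : T0 ≤ T := (le_max_left _ _).trans hT
    have h2 : 1 ≤ T := (le_max_right _ _).trans hT
    have k := h T h1 σ (by linarith) hσ1
    refine k.trans ?_
    apply mul_le_mul_of_nonneg_left _ hC.le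
    have hfin : volume (region (T ^ e) (σ - δ) (T + 2)) ≠ ⊤ := by
      have hsub : region (T ^ e) (σ - δ) (T + 2) ⊆ Icc (σ - δ) 1 ×ℂ Icc 0 (T + 2) := by
        rintro s ⟨h1, h2, h3, h4, -⟩
        exact ⟨⟨h1, h2⟩, ⟨h3, h4⟩⟩
      refine ne_top_of_le_ne_top ?_ (measure_mono hsub)
      exact (isCompact_Icc.reProdIm isCompact_Icc).measure_lt_top.ne
    have hsub : LD.av e (σ - min δ (1 / 2)) (T + 2) ⊆ region (T ^ e) (σ - δ) (T + 2) := by
      rintro s ⟨⟨k1, k2⟩, ⟨k3, k4⟩, k5⟩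
      refine ⟨by linarith, k2, k3, k4, ?_⟩
      have k6 : (T + 2) ^ e < ‖riemannZeta s‖ := k5
      exact lt_of_le_of_lt (Real.rpow_le_rpow (by linarith) (by linarith) he.le) k6
    have hle := ENNReal.toReal_mono hfin (measure_mono hsub)
    have hpos : 0 ≤ T ^ ε := by positivity
    have := mul_le_mul_of_nonneg_left hle hpos
    linarith
  · intro δ ε hδ hε
    obtain ⟨T0, h⟩ := LD.dict_hs (δ := min δ (1 / 4)) (lt_min hδ (by norm_num))
      (min_le_right _ _) hε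
    have h3 := min_le_left δ (1 / 4)
    refine ⟨T0, fun T hT σ hσ hσ1 => ?_⟩
    have k := h T hT σ (by linarith) hσ1
    rw [onHalfLine_eq]
    refine k.trans ?_
    have hsub : DH31.zeros (σ - min δ (1 / 4)) (T + 2) ⊆ DH31.zeros (σ - δ) (T + 2) :=
      fun s hs => ⟨hs.1, by linarith [hs.2.1], hs.2.2⟩
    have hle : (MV.N (σ - min δ (1 / 4)) (T + 2) : ℝ) ≤ N (σ - δ) (T + 2) := by
      have := DH31.cnt_mono (DH31.zeros_finite (σ - δ) (T + 2)) hsub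
      exact_mod_cast this
    linarith
  · rw [hDH]
    exact h2s.1
  · rw [hDH]
    exact h2s.2.1
  · rw [hDH]
    exact h2s.2.2

end Pool.Agent.Results.MP_4467b5_nt.LindelofOnAverage
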