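import Pool.Agent.R305.MV.K
/-!
# The density hypothesis and fractional moments of Moebius polynomials
Let `D(Y, t) = ∑ μ(n) exp (-(log (n / Y)) ^ 2) n ^ (-i t)`, a smoothed Moebius polynomial of length `Y`.
We prove unconditionally that for every `c ≥ 2` the zero-density estimate
`N(σ, T) ≪ T ^ (c (1 - σ) + ε)` is equivalent to the bounds
`∫_0^{Y ^ (q / c)} |D(Y, t)| ^ q dt ≪ Y ^ (q + ε)` for all small exponents `q > 0`, and then these bounds
hold for all `q > 0`. For `c = 2` this is the density hypothesis (and for even integers `q` the bound is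
the classical mean value theorem). More generally every zero-density estimate is equivalent to a bound for
the measure of the set of heights at which some `D(Y, t)` is large, and there is a local dictionary between
zeros and large values.
-/
set_option autoImplicit false
namespace Pool.Agent.Results.MP_4467b5_nt.MoebiusMeanValues
open Set MeasureTheory Complex Pool.Agent.R305

/-- the smoothed Moebius polynomial of length `Y` -/
noncomputable def D (Y t : ℝ) : ℂ := ∑' n : ℕ, (ArithmeticFunction.moebius n : ℂ) *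
  (Real.exp (-(Real.log (n / Y)) ^ 2) : ℂ) * (n : ℂ) ^ (-(t * I))

/-- the zeros of zeta with real part at least `σ` and imaginary part in `(0, T]` -/
def zeros (σ T : ℝ) : Set ℂ := {s : ℂ | riemannZeta s = 0 ∧ σ ≤ s.re ∧ 0 < s.im ∧ s.im ≤ T}

/-- their number, with multiplicity -/
noncomputable def N (σ T : ℝ) : ℕ := ∑ᶠ s ∈ zeros σ T, analyticOrderNatAt riemannZeta s

/-- the zero-density estimate with exponent `a` -/
def Density (a : ℝ → ℝ) : Prop := ∀ ε : ℝ, 0 < ε → ∃ C T₀ : ℝ, ∀ T : ℝ, T₀ ≤ T → ∀ σ : ℝ,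
  1 / 2 ≤ σ → σ ≤ 1 → (N σ T : ℝ) ≤ C * T ^ (a σ + ε)

/-- the density hypothesis -/
def DensityHypothesis : Prop := ∀ ε : ℝ, 0 < ε → ∃ C T₀ : ℝ, 0 < C ∧ ∀ T : ℝ, T₀ ≤ T → ∀ σ : ℝ,
  1 / 2 ≤ σ → σ ≤ 1 → (N σ T : ℝ) ≤ C * T ^ (2 * (1 - σ) + ε)

/-- the heights up to `T` at which some Moebius polynomial of length at most `T ^ A` is larger than
`T ^ B * Y ^ σ` -/
def heights (A B σ T : ℝ) : Set ℝ := {t : ℝ | 0 ≤ t ∧ t ≤ T ∧ ∃ Y : ℝ, 1 ≤ Y ∧ Y ≤ T ^ A ∧
  T ^ B * Y ^ σ < ‖D Y t‖}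

/-- the large value estimate with exponent `a` and threshold `T ^ B` -/
def LargeValues (a : ℝ → ℝ) (B : ℝ) : Prop := ∀ A ε : ℝ, 0 < A → 0 < ε → ∃ C T₀ : ℝ, ∀ T : ℝ,
  T₀ ≤ T → ∀ σ : ℝ, 1 / 2 ≤ σ → σ ≤ 1 → (volume (heights A B σ T)).toReal ≤ C * T ^ (a σ + ε)

/-- the bound for all moments of all Moebius polynomials of length at most a power of `T` -/
def Moments (c : ℝ) : Prop := ∀ q A ε : ℝ, 0 < q → 0 < A → 0 < ε → ∃ C T₀ : ℝ, ∀ T : ℝ, T₀ ≤ T →
  ∀ Y : ℝ, 1 ≤ Y → Y ≤ T ^ A → ∫ t in (0 : ℝ)..T, ‖D Y t‖ ^ q ≤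
    C * T ^ ε * (T ^ (c / 2) * Y ^ (q / 2) + Y ^ q)

/-- the bound for the `q`-th moment in the critical range -/
def CriticalMoment (c q : ℝ) : Prop := ∀ ε : ℝ, 0 < ε → ∃ C Y₀ : ℝ, ∀ Y : ℝ, Y₀ ≤ Y →
  ∫ t in (0 : ℝ)..Y ^ (q / c), ‖D Y t‖ ^ q ≤ C * Y ^ (q + ε)

lemma D_eq {Y : ℝ} (hY : 0 < Y) (t : ℝ) : D Y t = MV.D (Real.log Y) t := by
  unfold D MV.D
  refine tsum_congr fun n => ?_
  rcases Nat.eq_zero_or_pos n with rfl | hn
  · rw [MV.dt_zero]
    simp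
  have hn0 : (n : ℝ) ≠ 0 := by exact_mod_cast hn.ne'
  unfold MV.dt
  rw [mul_assoc, Real.log_div hn0 hY.ne', Complex.ofReal_exp,
    Complex.cpow_def_of_ne_zero (by exact_mod_cast hn.ne'), ← Complex.exp_add, ← Complex.natCast_log]
  congr 2
  simp only [Complex.ofReal_neg, Complex.ofReal_pow, Complex.ofReal_mul]
  ring

lemma D_exp (u t : ℝ) : D (Real.exp u) t = MV.D u t := by
  rw [D_eq (Real.exp_pos u), Real.log_exp]

lemma rpow_log {Y x : ℝ} (hY : 0 < Y) : Y ^ x = Real.exp (x * Real.log Y) := by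
  rw [Real.rpow_def_of_pos hY, mul_comm]

lemma log_le_of_le_rpow {Y T A : ℝ} (hY : 0 < Y) (hT : 0 < T) (h : Y ≤ T ^ A) :
    Real.log Y ≤ A * Real.log T := by
  rw [← Real.log_rpow hT]
  exact Real.log_le_log hY h

lemma exp_le_rpow {u T A : ℝ} (hT : 0 < T) (h : u ≤ A * Real.log T) : Real.exp u ≤ T ^ A := by
  rw [rpow_log hT]
  exact Real.exp_le_exp.2 h

lemma heights_eq (A B σ : ℝ) {T : ℝ} (hT : 0 < T) : heights A B σ T = MV.LV A B σ T := by
  ext t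
  constructor
  · rintro ⟨h0, h1, Y, hY1, hYA, hY⟩
    have hY0 : 0 < Y := by linarith
    refine ⟨⟨h0, h1⟩, Real.log Y, Real.log_nonneg hY1, log_le_of_le_rpow hY0 hT hYA, ?_⟩
    rw [← rpow_log hY0, ← D_eq hY0]
    exact hY
  · rintro ⟨⟨h0, h1⟩, u, hu0, huA, hu⟩
    refine ⟨h0, h1, Real.exp u, Real.one_le_exp hu0, exp_le_rpow hT huA, ?_⟩
    rw [rpow_log (Real.exp_pos u), Real.log_exp, D_exp]
    exact hu

lemma large_iff (a : ℝ → ℝ) (B : ℝ) : LargeValues a B ↔ MV.LargeB a B := by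
  constructor
  · intro h A ε hA hε
    obtain ⟨C, T0, hC⟩ := h A ε hA hε
    refine ⟨C, max T0 1, fun T hT σ hσ hσ1 => ?_⟩
    have h1 : T0 ≤ T := (le_max_left _ _).trans hT
    have h2 : 1 ≤ T := (le_max_right _ _).trans hT
    rw [← heights_eq A B σ (by linarith)]
    exact hC T h1 σ hσ hσ1
  · intro h A ε hA hε
    obtain ⟨C, T0, hC⟩ := h A ε hA hε
    refine ⟨C, max T0 1, fun T hT σ hσ hσ1 => ?_⟩
    have h1 : T0 ≤ T := (le_max_left _ _).trans hT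
    have h2 : 1 ≤ T := (le_max_right _ _).trans hT
    rw [heights_eq A B σ (by linarith)]
    exact hC T h1 σ hσ hσ1

lemma density_iff (a : ℝ → ℝ) : Density a ↔ MV.Dens a := Iff.rfl

lemma mom_iff (c : ℝ) : Moments c ↔ MV.Mom c := by
  constructor
  · intro h q A ε hq hA hε
    obtain ⟨C, T0, hC⟩ := h q A ε hq hA hε
    refine ⟨C, max T0 1, fun T hT u hu huA => ?_⟩
    have h1 : T0 ≤ T := (le_max_left _ _).trans hT
    have h2 : 1 ≤ T := (le_max_right _ _).trans hT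
    have h3 := hC T h1 (Real.exp u) (Real.one_le_exp hu) (exp_le_rpow (by linarith) huA)
    simp only [D_exp] at h3
    rw [rpow_log (Real.exp_pos u), rpow_log (Real.exp_pos u), Real.log_exp] at h3
    rwa [show q / 2 * u = q * u / 2 by ring] at h3
  · intro h q A ε hq hA hε
    obtain ⟨C, T0, hC⟩ := h q A ε hq hA hε
    refine ⟨C, max T0 1, fun T hT Y hY hYA => ?_⟩
    have h1 : T0 ≤ T := (le_max_left _ _).trans hT
    have h2 : 1 ≤ T := (le_max_right _ _).trans hT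
    have hY0 : 0 < Y := by linarith
    have h3 := hC T h1 (Real.log Y) (Real.log_nonneg hY) (log_le_of_le_rpow hY0 (by linarith) hYA)
    simp only [← D_eq hY0] at h3
    rw [show q * Real.log Y / 2 = q / 2 * Real.log Y by ring, ← rpow_log hY0, ← rpow_log hY0] at h3
    exact h3

lemma crit_iff (c q : ℝ) : CriticalMoment c q ↔ MV.Crit c q := by
  constructor
  · intro h ε hε
    obtain ⟨C, Y0, hC⟩ := h ε hε
    refine ⟨C, Real.log (max Y0 1), fun u hu => ?_⟩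
    have hpos : 0 < max Y0 1 := lt_of_lt_of_le one_pos (le_max_right _ _)
    have h1 : Y0 ≤ Real.exp u := (le_max_left Y0 1).trans ((Real.log_le_iff_le_exp hpos).1 hu)
    have h3 := hC (Real.exp u) h1
    simp only [D_exp] at h3
    rw [rpow_log (Real.exp_pos u), rpow_log (Real.exp_pos u), Real.log_exp] at h3
    rwa [show q / c * u = q * u / c by ring] at h3
  · intro h ε hε
    obtain ⟨C, u0, hC⟩ := h ε hε
    refine ⟨C, Real.exp u0, fun Y hY => ?_⟩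
    have hY0 : 0 < Y := (Real.exp_pos u0).trans_le hY
    have h1 : u0 ≤ Real.log Y := (Real.le_log_iff_exp_le hY0).2 hY
    have h3 := hC (Real.log Y) h1
    simp only [← D_eq hY0] at h3
    rw [show q * Real.log Y / c = q / c * Real.log Y by ring, ← rpow_log hY0, ← rpow_log hY0] at h3
    exact h3

/-- Zero-density estimates, large values and fractional moments of Moebius polynomials. -/
theorem result :
    -- the sets of zeros that are counted are finite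
    (∀ σ T : ℝ, (zeros σ T).Finite) ∧
    -- a zero makes some Moebius polynomial large at all heights near it
    (∀ δ B : ℝ, 0 < δ → 0 ≤ B → ∃ A T₀ : ℝ, 0 < A ∧ ∀ T σ : ℝ, T₀ ≤ T → 1 / 2 ≤ σ → ∀ ρ : ℂ,
      riemannZeta ρ = 0 → σ + δ ≤ ρ.re → 6 ≤ ρ.im → ρ.im ≤ T → ∀ t : ℝ, |t - ρ.im| ≤ 1 →
      ∃ Y : ℝ, 1 ≤ Y ∧ Y ≤ T ^ A ∧ T ^ B * Y ^ σ < ‖D Y t‖) ∧
    -- without zeros near the height `t` all Moebius polynomials are small at `t`
    (∀ δ ε A : ℝ, 0 < δ → 0 < ε → 0 < A → ∃ T₀ : ℝ, ∀ T σ t : ℝ, T₀ ≤ T → 1 / 2 + δ ≤ σ → σ ≤ 1 →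
      Real.log T + 5 ≤ t → t ≤ T →
      (∀ ρ : ℂ, riemannZeta ρ = 0 → σ - δ < ρ.re → Real.log T + 2 ≤ |ρ.im - t|) →
      ∀ Y : ℝ, 1 ≤ Y → Y ≤ T ^ A → ‖D Y t‖ ≤ T ^ ε * Y ^ σ) ∧
    -- zero-density estimates are equivalent to large value estimates
    (∀ (a : ℝ → ℝ) (B : ℝ), ContinuousOn a (Icc (1 / 2) 1) → 1 ≤ a (1 / 2) →
      (∀ σ ∈ Icc (1 / 2 : ℝ) 1, 0 ≤ a σ) → 0 < B → (Density a ↔ LargeValues a B)) ∧
    -- and to bounds for moments
    (∀ c : ℝ, 2 ≤ c → (Density (fun σ => c * (1 - σ)) ↔ Moments c) ∧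
      (Density (fun σ => c * (1 - σ)) ↔ ∀ q : ℝ, 0 < q → CriticalMoment c q) ∧
      ∀ q₀ : ℝ, 0 < q₀ →
        (Density (fun σ => c * (1 - σ)) ↔ ∀ q : ℝ, 0 < q → q < q₀ → CriticalMoment c q)) ∧
    -- the density hypothesis
    (DensityHypothesis ↔ ∀ B : ℝ, 0 < B → LargeValues (fun σ => 2 * (1 - σ)) B) ∧
    (DensityHypothesis ↔ Moments 2) ∧
    (DensityHypothesis ↔ ∀ q : ℝ, 0 < q → CriticalMoment 2 q) ∧
    (∀ q₀ : ℝ, 0 < q₀ →
      (DensityHypothesis ↔ ∀ q : ℝ, 0 < q → q < q₀ → CriticalMoment 2 q)) := by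
  have hmain : ∀ (a : ℝ → ℝ) (B : ℝ), ContinuousOn a (Icc (1 / 2) 1) → 1 ≤ a (1 / 2) →
      (∀ σ ∈ Icc (1 / 2 : ℝ) 1, 0 ≤ a σ) → 0 < B → (Density a ↔ LargeValues a B) := by
    intro a B h1 h2 h3 hB
    rw [density_iff, large_iff]
    exact ⟨fun h => MV.large_to_largeB hB (MV.dens_to_large a h1 h2 h3 h),
      fun h => MV.largeB_to_dens a h1 h2 h3 hB.le h⟩
  have hca : ∀ c : ℝ, 2 ≤ c → ContinuousOn (MV.dh c) (Icc (1 / 2) 1) ∧ 1 ≤ MV.dh c (1 / 2) ∧
      ∀ σ ∈ Icc (1 / 2 : ℝ) 1, 0 ≤ MV.dh c σ := by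
    intro c hc
    refine ⟨?_, ?_, ?_⟩
    · unfold MV.dh
      fun_prop
    · unfold MV.dh
      linarith
    · intro σ hσ
      unfold MV.dh
      exact mul_nonneg (by linarith) (by linarith [hσ.2])
  have hdm : ∀ c : ℝ, 2 ≤ c → Density (fun σ => c * (1 - σ)) → MV.Mom c := by
    intro c hc h
    obtain ⟨h1, h2, h3⟩ := hca c hc
    exact MV.large_to_mom hc (MV.dens_to_large (MV.dh c) h1 h2 h3 h)
  have hcd : ∀ c q₀ : ℝ, 2 ≤ c → 0 < q₀ → (∀ q : ℝ, 0 < q → q < q₀ → MV.Crit c q) →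
      Density (fun σ => c * (1 - σ)) := by
    intro c q₀ hc hq₀ h
    obtain ⟨h1, h2, h3⟩ := hca c hc
    obtain ⟨B, hB, hL⟩ := MV.crit_to_largeB hc hq₀ h
    exact MV.largeB_to_dens (MV.dh c) h1 h2 h3 hB.le hL
  have hmoments : ∀ c : ℝ, 2 ≤ c → (Density (fun σ => c * (1 - σ)) ↔ Moments c) ∧
      (Density (fun σ => c * (1 - σ)) ↔ ∀ q : ℝ, 0 < q → CriticalMoment c q) ∧
      ∀ q₀ : ℝ, 0 < q₀ →
        (Density (fun σ => c * (1 - σ)) ↔ ∀ q : ℝ, 0 < q → q < q₀ → CriticalMoment c q) := by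
    intro c hc
    refine ⟨?_, ?_, ?_⟩
    · rw [mom_iff]
      exact ⟨hdm c hc, fun h => hcd c 1 hc one_pos fun q hq _ => MV.mom_to_crit hc h hq⟩
    · simp only [crit_iff]
      exact ⟨fun h q hq => MV.mom_to_crit hc (hdm c hc h) hq,
        fun h => hcd c 1 hc one_pos fun q hq _ => h q hq⟩
    · intro q₀ hq₀
      simp only [crit_iff]
      exact ⟨fun h q hq _ => MV.mom_to_crit hc (hdm c hc h) hq, hcd c q₀ hc hq₀⟩
  have hDH : DensityHypothesis ↔ Density (fun σ => 2 * (1 - σ)) := by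
    constructor
    · intro h ε hε
      obtain ⟨C, T0, -, hC⟩ := h ε hε
      exact ⟨C, T0, hC⟩
    · intro h ε hε
      obtain ⟨C, T0, hC⟩ := h ε hε
      refine ⟨|C| + 1, max T0 1, by positivity, fun T hT σ hσ hσ1 => ?_⟩
      have h1 : T0 ≤ T := (le_max_left _ _).trans hT
      have h2 : 1 ≤ T := (le_max_right _ _).trans hT
      refine (hC T h1 σ hσ hσ1).trans ?_
      apply mul_le_mul_of_nonneg_right _ (by positivity)
      linarith [le_abs_self C]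
  refine ⟨DH31.zeros_finite, ?_, ?_, hmain, hmoments, ?_, ?_, ?_, ?_⟩
  · intro δ B hδ hB
    obtain ⟨A, hA, T0, h⟩ := MV.detect (δ := min δ (1 / 2)) (lt_min hδ (by norm_num))
      (min_le_right _ _) hB
    refine ⟨A, max T0 1, hA, fun T σ hT hσ ρ hρ hρσ hρ6 hρT t ht => ?_⟩
    have h1 : T0 ≤ T := (le_max_left _ _).trans hT
    have h2 : 1 ≤ T := (le_max_right _ _).trans hT
    obtain ⟨u, hu0, huA, hu⟩ := h T h1 σ hσ ρ hρ (by linarith [min_le_left δ (1 / 2)]) hρ6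
      (by linarith) t ht
    refine ⟨Real.exp u, Real.one_le_exp hu0, exp_le_rpow (by linarith) huA, ?_⟩
    rw [rpow_log (Real.exp_pos u), Real.log_exp, D_exp]
    exact hu
  · intro δ ε A hδ hε hA
    obtain ⟨T0, -, h⟩ := MV.local_bound (δ := min δ (1 / 4)) (lt_min hδ (by norm_num))
      (min_le_right _ _) hε hA
    refine ⟨max T0 1, fun T σ t hT hσ hσ1 ht htT hfree Y hY hYA => ?_⟩
    have h1 : T0 ≤ T := (le_max_left _ _).trans hT
    have h2 : 1 ≤ T := (le_max_right _ _).trans hT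
    have h3 := min_le_left δ (1 / 4)
    have hY0 : 0 < Y := by linarith
    have h4 := h T h1 σ (by linarith) hσ1 t ht htT
      (fun ρ hρ hρσ => hfree ρ hρ (by linarith)) (Real.log Y) (Real.log_nonneg hY)
      (log_le_of_le_rpow hY0 (by linarith) hYA)
    rw [← rpow_log hY0, ← D_eq hY0] at h4
    exact h4
  · obtain ⟨h1, h2, h3⟩ := hca 2 le_rfl
    rw [hDH]
    exact ⟨fun h B hB => (hmain _ B h1 h2 h3 hB).1 h, fun h => (hmain _ 1 h1 h2 h3 one_pos).2 (h 1 one_pos)⟩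
  · rw [hDH]
    exact (hmoments 2 le_rfl).1
  · rw [hDH]
    exact (hmoments 2 le_rfl).2.1
  · intro q₀ hq₀
    rw [hDH]
    exact (hmoments 2 le_rfl).2.2 q₀ hq₀

end Pool.Agent.Results.MP_4467b5_nt.MoebiusMeanValues
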